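import Pool.Agent.Y264.LQ.Fin

/-!
# An elementary form of the definitions
-/

set_option autoImplicit false

open Set Filter Topology MeasureTheory
open Pool.Agent.Y262.QE Pool.Agent.Y264.QR

noncomputable section

namespace Pool.Agent.Y264.LQ.El

variable {Ω M H : Type} [MeasurableSpace Ω] [MetricSpace M] [CompactSpace M] [MeasurableSpace M]
  [NormedAddCommGroup H] [InnerProductSpace ℝ H]

/-- the map `v ↦ q v` from the Hilbert space `H` to `L² (ν)` is linear (up to `ν`-null sets),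
bounded, compact (for every `ε` the form `∫ (q v)² dν` is at most `ε ‖v‖²` up to finitely many squares
of functionals) and of infinite rank -/
structure IsTrace (q : H → M → ℝ) (ν : Measure M) : Prop where
  mem : ∀ v, MemLp (q v) 2 ν
  add : ∀ v w, ∀ᵐ x ∂ν, q (v + w) x = q v x + q w x
  smul : ∀ (c : ℝ) (v : H), ∀ᵐ x ∂ν, q (c • v) x = c * q v x
  bdd : ∃ K : ℝ, ∀ v, ∫ x, (q v x) ^ 2 ∂ν ≤ K * ‖v‖ ^ 2
  cpt : ∀ ε : ℝ, 0 < ε → ∃ (N : ℕ) (w : Fin N → H),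
    ∀ v, ∫ x, (q v x) ^ 2 ∂ν ≤ ε * ‖v‖ ^ 2 + ∑ j, (inner ℝ (w j) v) ^ 2
  inf : ∃ e : ℕ → H, ∀ j k, ∫ x, q (e j) x * q (e k) x ∂ν = if j = k then 1 else 0

/-- the squared norm in `L²` -/
lemma nsq (ν : Measure M) (g : Lp ℝ 2 ν) (g' : M → ℝ) (h : (g : M → ℝ) =ᵐ[ν] g') :
    ‖g‖ ^ 2 = ∫ x, (g' x) ^ 2 ∂ν := by
  rw [← real_inner_self_eq_norm_sq, Pool.Agent.Y363.QE.inner_eq]
  refine integral_congr_ae ?_
  filter_upwards [h] with x hx
  rw [hx]
  ring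

/-- the operator -/
theorem toLib {q : H → M → ℝ} {ν : Measure M} (h : IsTrace q ν) :
    Pool.Agent.Y264.LQ.IsTrace q ν := by
  obtain ⟨K, hK⟩ := h.bdd
  let L : H →ₗ[ℝ] Lp ℝ 2 ν :=
    { toFun := fun v => (h.mem v).toLp (q v)
      map_add' := fun v w => by
        refine Lp.ext ?_
        filter_upwards [(h.mem (v + w)).coeFn_toLp, h.add v w, (h.mem v).coeFn_toLp,
          (h.mem w).coeFn_toLp, Lp.coeFn_add ((h.mem v).toLp (q v)) ((h.mem w).toLp (q w))]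
          with x h1 h2 h3 h4 h5
        rw [h1, h5, h2, Pi.add_apply, h3, h4]
      map_smul' := fun c v => by
        refine Lp.ext ?_
        filter_upwards [(h.mem (c • v)).coeFn_toLp, h.smul c v, (h.mem v).coeFn_toLp,
          Lp.coeFn_smul c ((h.mem v).toLp (q v))] with x h1 h2 h3 h4
        rw [RingHom.id_apply, h1, h4, h2, Pi.smul_apply, h3, smul_eq_mul] }
  have hL : ∀ v, (L v : M → ℝ) =ᵐ[ν] q v := fun v => (h.mem v).coeFn_toLp
  have hn : ∀ v, ‖L v‖ ^ 2 = ∫ x, (q v x) ^ 2 ∂ν := fun v => nsq ν (L v) (q v) (hL v)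
  let i : H →L[ℝ] Lp ℝ 2 ν := L.mkContinuous (Real.sqrt (|K|)) fun v => by
    have h1 : ‖L v‖ ^ 2 ≤ (Real.sqrt (|K|) * ‖v‖) ^ 2 := by
      rw [hn, mul_pow, Real.sq_sqrt (abs_nonneg K)]
      exact (hK v).trans (mul_le_mul_of_nonneg_right (le_abs_self K) (sq_nonneg _))
    exact (pow_le_pow_iff_left₀ (norm_nonneg _) (by positivity) two_ne_zero).1 h1
  refine ⟨i, hL, fun ε hε => ?_, h.inf⟩
  obtain ⟨N, w, hw⟩ := h.cpt ε hε
  refine ⟨N, fun j => innerSL ℝ (w j), fun v => ?_⟩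
  have h1 := hw v
  rw [← hn v] at h1
  exact h1

end Pool.Agent.Y264.LQ.El
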