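import Pool.Agent.Y264.LQ.Top
import Pool.Agent.Y161.QE.Sp
import Pool.Agent.Y618.QE.Cpt
import Pool.Agent.Y165.QE.Diag
import Pool.Agent.Y592.QE.Spec

/-!
# Random measures and a fixed Dirichlet form: assembly
-/

set_option autoImplicit false

open Set Filter Topology MeasureTheory
open Pool.Agent.Y262.QE Pool.Agent.Y264.QR

noncomputable section

namespace Pool.Agent.Y264.LQ

variable {Ω M H : Type} [MeasurableSpace Ω] [MetricSpace M] [CompactSpace M] [MeasurableSpace M]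
  [BorelSpace M] [NormedAddCommGroup H] [InnerProductSpace ℝ H]

/-- there is an eigenbasis -/
theorem exists_basis [CompleteSpace H] (q : H → M → ℝ) (ν : Measure M) [IsFiniteMeasure ν]
    (hq : IsTrace q ν) : ∃ (u : ℕ → H) (lam : ℕ → ℝ), IsEigenbasis q ν u lam := by
  obtain ⟨i, hi, hcp, e0, he0⟩ := hq
  have hS : Tc ν i := ⟨hcp, e0, fun m m' => by rw [inner_int ν i q hi, he0]⟩
  obtain ⟨b, hB, hF, -, -, -⟩ := fm2 M ν H i (aI H) aI_apply hS
  have hb0 : ∀ v w : H, b 0 v w = ∫ x, q v x * q w x ∂ν := by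
    intro v w
    rw [hB]
    refine integral_congr_ae ?_
    filter_upwards [hi v, hi w] with x h1 h2
    rw [h1, h2]
    simp
  obtain ⟨e, E, h⟩ := Pool.Agent.Y161.QE.sp Pool.Agent.Y618.QE.cpt
    (Pool.Agent.Y165.QE.diag Pool.Agent.Y592.QE.enum) H (aI H) (b 0) (hF 0)
  exact ⟨e, E, fun j k => by rw [← hb0]; exact h.orth j k,
    fun j v => by rw [← hb0, ← aI_apply]; exact h.eig j v, h.mono, h.tt, fun v => by
      have h1 := h.sum v
      simp only [hb0] at h1
      exact h1⟩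

/-- the eigenvalues are positive -/
lemma lam_pos {q : H → M → ℝ} {ν : Measure M} (hq : IsTrace q ν) {u : ℕ → H} {lam : ℕ → ℝ}
    (h : IsEigenbasis q ν u lam) (j : ℕ) : 0 < lam j := by
  obtain ⟨i, hi, -, -⟩ := hq
  have h1 := h.eig j (u j)
  rw [h.orth, if_pos rfl, mul_one, real_inner_self_eq_norm_sq] at h1
  rw [← h1]
  have h2 : u j ≠ 0 := by
    intro h0
    have h3 := inner_int ν i q hi (u j) (u j)
    rw [h.orth, if_pos rfl, h0, map_zero, inner_zero_left] at h3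
    exact zero_ne_one h3
  have h3 : 0 < ‖u j‖ := norm_pos_iff.2 h2
  positivity

/-- the hypotheses on the random measure and its spectrum -/
structure Hyp (P : Measure Ω) (q : H → M → ℝ) (μ : Ω → Measure M) (u : Ω → ℕ → H)
    (lam : Ω → ℕ → ℝ) (C : ℝ) : Prop where
  fin : ∀ o, IsFiniteMeasure (μ o)
  tr : ∀ o, IsTrace q (μ o)
  mm : ∀ g : C(M, ℝ), Measurable fun o => ∫ x, g x ∂(μ o)
  eb : ∀ o, IsEigenbasis q (μ o) (u o) (lam o)
  ml : ∀ j, Measurable fun o => lam o j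
  mn : ∀ (j : ℕ) (g : C(M, ℝ)), Measurable fun o => ∫ x, g x * (q (u o j) x) ^ 2 ∂(μ o)
  pc : 0 < C
  wl : TendstoInMeasure P (fun (j : ℕ) o => lam o j * (μ o).real univ / (j + 1)) atTop fun _ => C

section main

variable {P : Measure Ω} [IsProbabilityMeasure P] {q : H → M → ℝ} {μ : Ω → Measure M}
  {u : Ω → ℕ → H} {lam : Ω → ℕ → ℝ} {C : ℝ}

lemma real_univ (h : Hyp P q μ u lam C) (o : Ω) : (μ o).real univ = ∫ x, (1 : C(M, ℝ)) x ∂(μ o) := by
  simp

/-- one direction -/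
theorem dir (h : Hyp P q μ u lam C) (f : C(M, ℝ)) (hf : QI P μ f) (χ : Ω → ℝ)
    (hχ : Integrable χ P) :
    Tendsto (fun j => ∫ o, χ o * ∫ x, f x * (q (u o j) x) ^ 2 ∂(μ o) ∂P) atTop
      (𝓝 (∫ o, χ o * ((∫ x, f x ∂(μ o)) / (μ o).real univ) ∂P)) := by
  haveI := h.fin
  obtain ⟨θ, t1, t2, t3, t4, t5⟩ := hf
  have hO := fun o => orbit (P := P) q μ h.tr u lam h.eb f θ t5 o
  have hG : Measurable fun o => (μ o).real univ := by
    have h1 := h.mm 1
    simp only [real_univ h]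
    exact h1
  have hsd : Sd P θ ‖f‖ C (fun j o => ∫ x, f x * (q (u o j) x) ^ 2 ∂(μ o)) (fun j o => lam o j)
      (fun o => (∫ x, f x ∂(μ o)) / (μ o).real univ) (fun o => (μ o).real univ) :=
    { fl := ⟨t1, t2, t3, t4⟩
      mX := fun j => h.mn j f
      mE := h.ml
      mY := (h.mm f).div hG
      mG := hG
      pE := fun j o => lam_pos (h.tr o) (h.eb o) j
      pG := fun o => by
        have h1 := (hO o).2.2.1 0
        rw [t2] at h1
        exact h1
      bX := fun j o => by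
        have h1 := (hO o).1 0 j
        rw [t2] at h1
        exact h1
      bY := fun o => by
        have h1 := (hO o).2.1 0
        rw [t2] at h1
        exact h1
      lE := fun j o s t => (hO o).2.2.2.1 j s t
      lG := fun o s t => (hO o).2.2.2.2.1 s t
      dE := fun o => (hO o).2.2.2.2.2.1
      iG := fun o => (hO o).2.2.2.2.2.2
      cC := h.pc
      wl := h.wl }
  exact hsd.main χ hχ

end main

/-- a bounded sequence of functionals which converges on a set converges on its closed span -/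
lemma ext {F : Type} [NormedAddCommGroup F] [NormedSpace ℝ F] (Φ : ℕ → F → ℝ) (Ψ : F → ℝ) (B : ℝ)
    (ha : ∀ j f g, Φ j (f + g) = Φ j f + Φ j g) (hs : ∀ j (c : ℝ) f, Φ j (c • f) = c * Φ j f)
    (ha' : ∀ f g, Ψ (f + g) = Ψ f + Ψ g) (hs' : ∀ (c : ℝ) f, Ψ (c • f) = c * Ψ f)
    (hb : ∀ j f, |Φ j f| ≤ B * ‖f‖) (hb' : ∀ f, |Ψ f| ≤ B * ‖f‖) (S : Set F)
    (hS : ∀ f ∈ S, Tendsto (fun j => Φ j f) atTop (𝓝 (Ψ f))) (f : F)
    (hf : f ∈ closure (Submodule.span ℝ S : Set F)) :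
    Tendsto (fun j => Φ j f) atTop (𝓝 (Ψ f)) := by
  have h1 : ∀ g ∈ Submodule.span ℝ S, Tendsto (fun j => Φ j g) atTop (𝓝 (Ψ g)) := by
    intro g hg
    induction hg using Submodule.span_induction with
    | mem x hx => exact hS x hx
    | zero =>
      have e1 : ∀ j, Φ j 0 = 0 := fun j => by
        have := hs j 0 0
        rwa [zero_smul, zero_mul] at this
      have e2 : Ψ 0 = 0 := by
        have := hs' 0 0
        rwa [zero_smul, zero_mul] at this
      simp only [e1, e2]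
      exact tendsto_const_nhds
    | add x y _ _ hx hy =>
      simp only [ha, ha']
      exact hx.add hy
    | smul c x _ hx =>
      simp only [hs, hs']
      exact hx.const_mul c
  have hB : 0 ≤ B ∨ ∀ g : F, g = 0 := by
    by_cases hB : 0 ≤ B
    · exact Or.inl hB
    · right
      intro g
      by_contra hg
      have h2 := (abs_nonneg _).trans (hb' g)
      have h3 : 0 < ‖g‖ := norm_pos_iff.2 hg
      nlinarith
  rcases hB with hB | hB
  swap
  · rw [hB f]
    exact h1 0 (Submodule.zero_mem _)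
  rw [Metric.tendsto_atTop]
  intro ε hε
  have hε' : 0 < ε / (4 * (B + 1)) := by positivity
  obtain ⟨g, hg, hfg⟩ := Metric.mem_closure_iff.1 hf _ hε'
  rw [dist_eq_norm] at hfg
  obtain ⟨N, hN⟩ := Metric.tendsto_atTop.1 (h1 g hg) (ε / 2) (by positivity)
  refine ⟨N, fun n hn => ?_⟩
  have h2 := hN n hn
  rw [Real.dist_eq] at h2 ⊢
  have e1 : Φ n f = Φ n (f - g) + Φ n g := by rw [← ha, sub_add_cancel]
  have e2 : Ψ f = Ψ (f - g) + Ψ g := by rw [← ha', sub_add_cancel]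
  have h3 := hb n (f - g)
  have h4 := hb' (f - g)
  have h5 : B * ‖f - g‖ ≤ ε / 4 := by
    have h6 : B * ‖f - g‖ ≤ B * (ε / (4 * (B + 1))) := mul_le_mul_of_nonneg_left hfg.le hB
    have h7 : B * (ε / (4 * (B + 1))) ≤ (B + 1) * (ε / (4 * (B + 1))) :=
      mul_le_mul_of_nonneg_right (by linarith) hε'.le
    have h8 : (B + 1) * (ε / (4 * (B + 1))) = ε / 4 := by field_simp
    linarith
  have e3 : Φ n f - Ψ f = Φ n (f - g) - Ψ (f - g) + (Φ n g - Ψ g) := by rw [e1, e2]; ring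
  rw [e3]
  calc |Φ n (f - g) - Ψ (f - g) + (Φ n g - Ψ g)|
      ≤ |Φ n (f - g) - Ψ (f - g)| + |Φ n g - Ψ g| := abs_add_le _ _
    _ ≤ (|Φ n (f - g)| + |Ψ (f - g)|) + |Φ n g - Ψ g| := by
        have := abs_sub (Φ n (f - g)) (Ψ (f - g))
        linarith
    _ < ε := by linarith

section main2

variable {P : Measure Ω} [IsProbabilityMeasure P] {q : H → M → ℝ} {μ : Ω → Measure M}
  {u : Ω → ℕ → H} {lam : Ω → ℕ → ℝ} {C : ℝ}

lemma qsq (h : Hyp P q μ u lam C) (o : Ω) (j : ℕ) :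
    Integrable (fun x => (q (u o j) x) ^ 2) (μ o) ∧ ∫ x, (q (u o j) x) ^ 2 ∂(μ o) = 1 := by
  obtain ⟨i, hi, -, -⟩ := h.tr o
  have h1 : MemLp (q (u o j)) 2 (μ o) := (memLp_congr_ae (hi (u o j))).1 (Lp.memLp _)
  refine ⟨h1.integrable_sq, ?_⟩
  have h2 := (h.eb o).orth j j
  rw [if_pos rfl] at h2
  rw [← h2]
  exact integral_congr_ae (ae_of_all _ fun x => pow_two _)

lemma fsq (h : Hyp P q μ u lam C) (o : Ω) (j : ℕ) (f : C(M, ℝ)) :
    Integrable (fun x => f x * (q (u o j) x) ^ 2) (μ o) := by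
  refine (qsq h o j).1.bdd_mul (c := ‖f‖) f.continuous.measurable.aestronglyMeasurable
    (Eventually.of_forall fun x => f.norm_coe_le_norm x)

lemma fbd (h : Hyp P q μ u lam C) (o : Ω) (j : ℕ) (f : C(M, ℝ)) :
    |∫ x, f x * (q (u o j) x) ^ 2 ∂(μ o)| ≤ ‖f‖ := by
  have h1 := qsq h o j
  calc |∫ x, f x * (q (u o j) x) ^ 2 ∂(μ o)| ≤ ∫ x, |f x * (q (u o j) x) ^ 2| ∂(μ o) :=
        abs_integral_le_integral_abs
    _ ≤ ∫ x, ‖f‖ * (q (u o j) x) ^ 2 ∂(μ o) := by
        refine integral_mono (fsq h o j f).abs (h1.1.const_mul _) fun x => ?_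
        show |f x * (q (u o j) x) ^ 2| ≤ ‖f‖ * (q (u o j) x) ^ 2
        rw [abs_mul, abs_of_nonneg (sq_nonneg (q (u o j) x)), ← Real.norm_eq_abs]
        exact mul_le_mul_of_nonneg_right (f.norm_coe_le_norm x) (sq_nonneg _)
    _ = ‖f‖ := by rw [integral_const_mul, h1.2, mul_one]

lemma fint (h : Hyp P q μ u lam C) (o : Ω) (f : C(M, ℝ)) : Integrable (fun x => f x) (μ o) := by
  haveI := h.fin o
  exact Pool.Agent.Y155.QR.int_cont (μ o) f.continuous

lemma gpos (h : Hyp P q μ u lam C) (o : Ω) : 0 < (μ o).real univ := by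
  haveI := h.fin o
  refine ENNReal.toReal_pos (fun h0 => ?_) (measure_ne_top _ _)
  have h1 := (qsq h o 0).2
  rw [Measure.measure_univ_eq_zero] at h0
  rw [h0, integral_zero_measure] at h1
  exact zero_ne_one h1

lemma abd (h : Hyp P q μ u lam C) (o : Ω) (f : C(M, ℝ)) :
    |(∫ x, f x ∂(μ o)) / (μ o).real univ| ≤ ‖f‖ := by
  haveI := h.fin o
  rw [abs_div, abs_of_pos (gpos h o), div_le_iff₀ (gpos h o)]
  have h1 := norm_integral_le_of_norm_le_const (μ := μ o) (C := ‖f‖)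
    (Eventually.of_forall fun x => f.norm_coe_le_norm x)
  exact h1

lemma bint {χ X : Ω → ℝ} (hχ : Integrable χ P) (hX : AEStronglyMeasurable X P) {K : ℝ}
    (hb : ∀ o, |X o| ≤ K) : Integrable (fun o => χ o * X o) P := by
  have h1 := hχ.bdd_mul (c := K) hX (Eventually.of_forall fun o => by
    rw [Real.norm_eq_abs]; exact hb o)
  refine h1.congr (Eventually.of_forall fun o => ?_)
  exact mul_comm _ _

lemma bbd {χ X : Ω → ℝ} (hχ : Integrable χ P) (hX : AEStronglyMeasurable X P) {K : ℝ}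
    (hb : ∀ o, |X o| ≤ K) : |∫ o, χ o * X o ∂P| ≤ (∫ o, |χ o| ∂P) * K := by
  rw [← integral_mul_const]
  refine abs_integral_le_integral_abs.trans
    (integral_mono (bint hχ hX hb).abs (hχ.abs.mul_const _) fun o => ?_)
  show |χ o * X o| ≤ |χ o| * K
  rw [abs_mul]
  exact mul_le_mul_of_nonneg_left (hb o) (abs_nonneg _)

/-- **The theorem.** -/
theorem main (h : Hyp P q μ u lam C) (f : C(M, ℝ))
    (hf : f ∈ closure (Submodule.span ℝ {g | QI P μ g} : Set C(M, ℝ))) :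
    (∀ χ : Ω → ℝ, Integrable χ P →
      Tendsto (fun j => ∫ o, χ o * ∫ x, f x * (q (u o j) x) ^ 2 ∂(μ o) ∂P) atTop
        (𝓝 (∫ o, χ o * ((∫ x, f x ∂(μ o)) / (μ o).real univ) ∂P))) ∧
    ∀ J : ℕ → ℕ, Tendsto J atTop atTop → ∀ᵐ o ∂P, ∀ L : ℝ,
      Tendsto (fun k => ∫ x, f x * (q (u o (J k)) x) ^ 2 ∂(μ o)) atTop (𝓝 L) →
        L = (∫ x, f x ∂(μ o)) / (μ o).real univ := by
  have hG : Measurable fun o => (μ o).real univ := by
    have h1 := h.mm 1
    simp only [real_univ h]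
    exact h1
  have hY : ∀ g : C(M, ℝ), AEStronglyMeasurable
      (fun o => (∫ x, g x ∂(μ o)) / (μ o).real univ) P := fun g =>
    ((h.mm g).div hG).aestronglyMeasurable
  have hX : ∀ (g : C(M, ℝ)) (j : ℕ), AEStronglyMeasurable
      (fun o => ∫ x, g x * (q (u o j) x) ^ 2 ∂(μ o)) P := fun g j =>
    (h.mn j g).aestronglyMeasurable
  have key : ∀ χ : Ω → ℝ, Integrable χ P →
      Tendsto (fun j => ∫ o, χ o * ∫ x, f x * (q (u o j) x) ^ 2 ∂(μ o) ∂P) atTop
        (𝓝 (∫ o, χ o * ((∫ x, f x ∂(μ o)) / (μ o).real univ) ∂P)) := by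
    intro χ hχ
    refine ext (fun j (g : C(M, ℝ)) => ∫ o, χ o * ∫ x, g x * (q (u o j) x) ^ 2 ∂(μ o) ∂P)
      (fun g => ∫ o, χ o * ((∫ x, g x ∂(μ o)) / (μ o).real univ) ∂P) (∫ o, |χ o| ∂P)
      ?_ ?_ ?_ ?_ ?_ ?_ {g | QI P μ g} (fun g hg => dir h g hg χ hχ) f hf
    · intro j g g'
      show ∫ o, χ o * ∫ x, (g + g') x * (q (u o j) x) ^ 2 ∂(μ o) ∂P = _
      rw [← integral_add (bint hχ (hX g j) fun o => fbd h o j g)
        (bint hχ (hX g' j) fun o => fbd h o j g')]
      refine integral_congr_ae (ae_of_all _ fun o => ?_)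
      show χ o * ∫ x, (g + g') x * (q (u o j) x) ^ 2 ∂(μ o) =
        χ o * (∫ x, g x * (q (u o j) x) ^ 2 ∂(μ o)) +
          χ o * ∫ x, g' x * (q (u o j) x) ^ 2 ∂(μ o)
      rw [← mul_add, ← integral_add (fsq h o j g) (fsq h o j g')]
      congr 1
      refine integral_congr_ae (ae_of_all _ fun x => ?_)
      show (g + g') x * _ = _
      rw [ContinuousMap.add_apply, add_mul]
    · intro j c g
      show ∫ o, χ o * ∫ x, (c • g) x * (q (u o j) x) ^ 2 ∂(μ o) ∂P = _
      rw [← integral_const_mul]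
      refine integral_congr_ae (ae_of_all _ fun o => ?_)
      show χ o * ∫ x, (c • g) x * (q (u o j) x) ^ 2 ∂(μ o) =
        c * (χ o * ∫ x, g x * (q (u o j) x) ^ 2 ∂(μ o))
      have e : ∫ x, (c • g) x * (q (u o j) x) ^ 2 ∂(μ o) =
          c * ∫ x, g x * (q (u o j) x) ^ 2 ∂(μ o) := by
        rw [← integral_const_mul]
        refine integral_congr_ae (ae_of_all _ fun x => ?_)
        show c * g x * (q (u o j) x) ^ 2 = c * (g x * (q (u o j) x) ^ 2)
        rw [mul_assoc]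
      rw [e]
      ring
    · intro g g'
      show ∫ o, χ o * ((∫ x, (g + g') x ∂(μ o)) / (μ o).real univ) ∂P = _
      rw [← integral_add (bint hχ (hY g) fun o => abd h o g)
        (bint hχ (hY g') fun o => abd h o g')]
      refine integral_congr_ae (ae_of_all _ fun o => ?_)
      show χ o * ((∫ x, (g + g') x ∂(μ o)) / (μ o).real univ) =
        χ o * ((∫ x, g x ∂(μ o)) / (μ o).real univ) +
          χ o * ((∫ x, g' x ∂(μ o)) / (μ o).real univ)
      rw [← mul_add, ← add_div, ← integral_add (fint h o g) (fint h o g')]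
      rfl
    · intro c g
      show ∫ o, χ o * ((∫ x, (c • g) x ∂(μ o)) / (μ o).real univ) ∂P = _
      rw [← integral_const_mul]
      refine integral_congr_ae (ae_of_all _ fun o => ?_)
      show χ o * ((∫ x, (c • g) x ∂(μ o)) / (μ o).real univ) =
        c * (χ o * ((∫ x, g x ∂(μ o)) / (μ o).real univ))
      have e : ∫ x, (c • g) x ∂(μ o) = c * ∫ x, g x ∂(μ o) := by
        rw [← integral_const_mul]
        rfl
      rw [e]
      ring
    · intro j g
      exact bbd hχ (hX g j) fun o => fbd h o j g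
    · intro g
      exact bbd hχ (hY g) fun o => abd h o g
  refine ⟨key, ?_⟩
  exact Pool.Agent.Y401.QR.t_QL Ω P (fun j o => ∫ x, f x * (q (u o j) x) ^ 2 ∂(μ o))
    (fun o => (∫ x, f x ∂(μ o)) / (μ o).real univ) ‖f‖ (hX f) (hY f)
    (fun j => ae_of_all _ fun o => fbd h o j f) (ae_of_all _ fun o => abd h o f) key

end main2

end Pool.Agent.Y264.LQ
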