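import Pool.Agent.Y419.QR.Fm
import Pool.Agent.Y390.QR.LIP
import Pool.Agent.Y147.QR.AE

/-!
# The forms of the measures `exp φ · ν` on a fixed Hilbert space
-/

set_option autoImplicit false

open Set Filter Topology MeasureTheory
open scoped Real ContDiff

noncomputable section

namespace Pool.Agent.Y264.LQ

open Pool.Agent.Y262.QE Pool.Agent.Y264.QR Pool.Agent.Y363.QE Pool.Agent.Y419.QR

/-- the trace of the Hilbert space `H` in `L² (ν)`: compact, of infinite rank -/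
structure Tc {M : Type} [TopologicalSpace M] [MeasurableSpace M] {H : Type} [NormedAddCommGroup H]
    [InnerProductSpace ℝ H] (ν : Measure M) (i : H →L[ℝ] Lp ℝ 2 ν) : Prop where
  cp : ∀ ε : ℝ, 0 < ε → ∃ (N : ℕ) (l : Fin N → H →L[ℝ] ℝ),
    ∀ v, ‖i v‖ ^ 2 ≤ ε * ‖v‖ ^ 2 + ∑ j, (l j v) ^ 2
  inf : ∃ e : ℕ → H, ∀ m m', inner ℝ (i (e m)) (i (e m')) = if m = m' then (1 : ℝ) else 0

theorem fm2 (M : Type) [MetricSpace M] [CompactSpace M] [MeasurableSpace M] [BorelSpace M]
    (μ : Measure M) [IsFiniteMeasure μ] (H : Type) [NormedAddCommGroup H] [InnerProductSpace ℝ H]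
    (i : H →L[ℝ] Lp ℝ 2 μ) (a : H →L[ℝ] H →L[ℝ] ℝ) (ha : ∀ u v, a u v = inner ℝ u v)
    (hS : Tc μ i) :
    ∃ b : C(M, ℝ) → H →L[ℝ] H →L[ℝ] ℝ, IsB μ i b ∧ (∀ φ, Fm a (b φ)) ∧
      (∀ φ : C(M, ℝ), 0 < ∫ x, Real.exp (φ x) ∂μ) ∧
      (∀ (φ ψ : C(M, ℝ)) (v : H), b φ v v ≤ Real.exp ‖φ - ψ‖ * b ψ v v) ∧
      ∀ h : C(M, ℝ), ∃ k : C(M, ℝ) → H →L[ℝ] H →L[ℝ] ℝ, (∀ φ u v, k φ u v = k φ v u) ∧
        (∀ φ v, k φ v v = kap μ i h φ v ∧ |k φ v v| ≤ ‖h‖ * b φ v v) ∧
        ∀ φ v (τ : ℝ), b φ v v + τ * k φ v v ≤ b (φ + τ • h) v v := by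
  -- bounds of the weights
  have habs : ∀ (φ : C(M, ℝ)) (x : M), |φ x| ≤ ‖φ‖ := fun φ x => by
    rw [← Real.norm_eq_abs]
    exact φ.norm_coe_le_norm x
  have hup : ∀ (φ : C(M, ℝ)) x, Real.exp (φ x) ≤ Real.exp ‖φ‖ := fun φ x =>
    Real.exp_le_exp.2 ((le_abs_self _).trans (habs φ x))
  have hlo : ∀ (φ : C(M, ℝ)) x, Real.exp (-‖φ‖) ≤ Real.exp (φ x) := fun φ x =>
    Real.exp_le_exp.2 (neg_le_of_abs_le (habs φ x))
  have hwm : ∀ φ : C(M, ℝ), Measurable fun x => Real.exp (φ x) := fun φ =>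
    (Real.continuous_exp.comp φ.continuous).measurable
  have hkm : ∀ h φ : C(M, ℝ), Measurable fun x => h x * Real.exp (φ x) := fun h φ =>
    h.continuous.measurable.mul (hwm φ)
  have hwC : ∀ (φ : C(M, ℝ)) x, |Real.exp (φ x)| ≤ Real.exp ‖φ‖ := fun φ x => by
    rw [abs_of_pos (Real.exp_pos _)]
    exact hup φ x
  have hkC : ∀ (h φ : C(M, ℝ)) x, |h x * Real.exp (φ x)| ≤ ‖h‖ * Real.exp ‖φ‖ := fun h φ x => by
    rw [abs_mul]
    exact mul_le_mul (habs h x) (hwC φ x) (abs_nonneg _) (norm_nonneg _)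
  -- the forms
  have hb : ∀ φ : C(M, ℝ), ∃ b : H →L[ℝ] H →L[ℝ] ℝ,
      ∀ u v, b u v = ∫ x, Real.exp (φ x) * (i u x * i v x) ∂μ := by
    intro φ
    obtain ⟨B, hB⟩ := Pool.Agent.Y469.QE.mul M μ (fun x => Real.exp (φ x)) (hwm φ) _ (hwC φ)
    refine ⟨B.bilinearComp i i, fun u v => ?_⟩
    rw [ContinuousLinearMap.bilinearComp_apply, hB]
  have hk : ∀ h φ : C(M, ℝ), ∃ k : H →L[ℝ] H →L[ℝ] ℝ,
      ∀ u v, k u v = ∫ x, h x * Real.exp (φ x) * (i u x * i v x) ∂μ := by
    intro h φ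
    obtain ⟨B, hB⟩ := Pool.Agent.Y469.QE.mul M μ (fun x => h x * Real.exp (φ x)) (hkm h φ) _
      (hkC h φ)
    refine ⟨B.bilinearComp i i, fun u v => ?_⟩
    rw [ContinuousLinearMap.bilinearComp_apply, hB]
  choose b hb using hb
  -- comparison with the norm
  have hbu : ∀ φ v, b φ v v ≤ Real.exp ‖φ‖ * ‖i v‖ ^ 2 := by
    intro φ v
    rw [hb, norm_eq, ← integral_const_mul]
    exact mono_w (hwm φ) (hwC φ) measurable_const (C' := Real.exp ‖φ‖)
      (fun x => by rw [abs_of_pos (Real.exp_pos _)]) (hup φ) (i v)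
  have hbl : ∀ φ v, Real.exp (-‖φ‖) * ‖i v‖ ^ 2 ≤ b φ v v := by
    intro φ v
    rw [hb, norm_eq, ← integral_const_mul]
    exact mono_w measurable_const (C := Real.exp (-‖φ‖))
      (fun x => by rw [abs_of_pos (Real.exp_pos _)]) (hwm φ) (hwC φ) (hlo φ) (i v)
  have hnb : ∀ φ v, 0 ≤ b φ v v := fun φ v =>
    (mul_nonneg (Real.exp_pos _).le (sq_nonneg _)).trans (hbl φ v)
  have hsb : ∀ φ u v, b φ u v = b φ v u := by
    intro φ u v
    rw [hb, hb]
    refine integral_congr_ae (Eventually.of_forall fun x => ?_)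
    simp only
    ring
  -- multiplying the functionals
  have hsc : ∀ (Q : ℝ), 0 ≤ Q → ∀ (N : ℕ) (l : Fin N → H →L[ℝ] ℝ) (v : H),
      ∑ j, ((√Q • l j) v) ^ 2 = Q * ∑ j, (l j v) ^ 2 := by
    intro Q hQ N l v
    rw [Finset.mul_sum]
    refine Finset.sum_congr rfl fun j _ => ?_
    rw [smul_apply, smul_eq_mul, mul_pow, Real.sq_sqrt hQ]
  have hC := hS.cp
  have hvv : ∀ v, a v v = ‖v‖ ^ 2 := fun v => by rw [ha, real_inner_self_eq_norm_sq]
  obtain ⟨e, he⟩ := hS.inf
  have hmu : μ ≠ 0 := by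
    intro h0
    have h1 := he 0 0
    rw [if_pos rfl, inner_eq] at h1
    have h2 : ∀ f : M → ℝ, ∫ x, f x ∂μ = 0 := by
      intro f
      rw [h0]
      exact integral_zero_measure _
    rw [h2] at h1
    exact zero_ne_one h1
  refine ⟨b, hb, ?_, ?_, ?_, ?_⟩
  · intro φ
    have hQ0 : 0 < Real.exp ‖φ‖ := Real.exp_pos _
    have hE0 : 0 < Real.exp (-‖φ‖) := Real.exp_pos _
    refine ⟨fun u v => by rw [ha, ha, real_inner_comm], hsb φ,
      fun v => by rw [hvv]; positivity, hnb φ, ⟨1, one_pos, ?_⟩, ?_, ?_⟩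
    · intro v
      have h1 := hnb φ v
      rw [hvv v]
      linarith
    · intro ε hε
      obtain ⟨ε', hε'⟩ : ∃ ε' : ℝ, ε' = ε * Real.exp (-‖φ‖) := ⟨_, rfl⟩
      have e1 : 0 < ε' := by rw [hε']; positivity
      have e3 : Real.exp ‖φ‖ * ε' = ε := by
        rw [hε', Real.exp_neg]
        field_simp
      obtain ⟨N, l, hl⟩ := hC ε' e1
      refine ⟨N, fun j => √(Real.exp ‖φ‖) • l j, fun v => ?_⟩
      rw [hsc _ hQ0.le]
      have h1 := hbu φ v
      have h2 := mul_le_mul_of_nonneg_left (hl v) hQ0.le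
      have h6 : Real.exp ‖φ‖ * (ε' * ‖v‖ ^ 2 + ∑ j, (l j v) ^ 2) =
          (Real.exp ‖φ‖ * ε') * ‖v‖ ^ 2 + Real.exp ‖φ‖ * ∑ j, (l j v) ^ 2 := by ring
      rw [h6, e3] at h2
      linarith
    · refine gs (b φ) (hsb φ) (hnb φ) e fun x hx => ?_
      have h1 := hbl φ (Finsupp.linearCombination ℝ e x)
      rw [hx] at h1
      have h2 : ‖i (Finsupp.linearCombination ℝ e x)‖ ^ 2 = 0 := by
        have h3 := sq_nonneg ‖i (Finsupp.linearCombination ℝ e x)‖
        by_contra hne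
        have h4 : 0 < ‖i (Finsupp.linearCombination ℝ e x)‖ ^ 2 := lt_of_le_of_ne h3 (Ne.symm hne)
        have h5 := mul_pos hE0 h4
        linarith
      have h3 : i (Finsupp.linearCombination ℝ e x) = 0 := by
        rw [← norm_eq_zero]
        exact pow_eq_zero_iff (two_ne_zero) |>.1 h2
      have h4 : (i (Finsupp.linearCombination ℝ e x)) =
          Finsupp.linearCombination ℝ (fun m => i (e m)) x := by
        rw [Finsupp.linearCombination_apply, Finsupp.linearCombination_apply, Finsupp.sum,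
          Finsupp.sum, map_sum]
        refine Finset.sum_congr rfl fun m _ => ?_
        rw [map_smul]
      have hon : Orthonormal ℝ (fun m => i (e m)) := orthonormal_iff_ite.2 he
      rw [h4] at h3
      have h5 := linearIndependent_iff.1 hon.linearIndependent x h3
      exact h5
  · intro φ
    have _ : NeZero μ := ⟨hmu⟩
    refine integral_exp_pos ?_
    have h1 : Integrable (fun _ : M => (1 : ℝ)) μ := integrable_const 1
    have h2 := h1.bdd_mul (c := Real.exp ‖φ‖) (hwm φ).aestronglyMeasurable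
      (Eventually.of_forall fun x => by
        rw [Real.norm_eq_abs]
        exact hwC φ x)
    simpa using h2
  · intro φ ψ v
    rw [hb, hb, ← integral_const_mul]
    have e' : ∀ x, Real.exp ‖φ - ψ‖ * (Real.exp (ψ x) * (i v x * i v x)) =
        Real.exp ‖φ - ψ‖ * Real.exp (ψ x) * (i v x * i v x) := fun x => by ring
    simp_rw [e']
    refine mono_w (hwm φ) (hwC φ) (measurable_const.mul (hwm ψ))
      (C' := Real.exp ‖φ - ψ‖ * Real.exp ‖ψ‖) ?_ (fun x => ?_) (i v)
    · intro x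
      show |Real.exp ‖φ - ψ‖ * Real.exp (ψ x)| ≤ _
      rw [abs_mul, abs_of_pos (Real.exp_pos ‖φ - ψ‖)]
      exact mul_le_mul_of_nonneg_left (hwC ψ x) (Real.exp_pos _).le
    · show Real.exp (φ x) ≤ Real.exp ‖φ - ψ‖ * Real.exp (ψ x)
      rw [← Real.exp_add]
      apply Real.exp_le_exp.2
      have h1 := (le_abs_self _).trans (habs (φ - ψ) x)
      have h2 : (φ - ψ) x = φ x - ψ x := rfl
      linarith
  · intro h
    have hk' := hk h
    choose k hk' using hk'
    refine ⟨k, ?_, ?_, ?_⟩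
    · intro φ u v
      rw [hk', hk']
      refine integral_congr_ae (Eventually.of_forall fun x => ?_)
      simp only
      ring
    · intro φ v
      refine ⟨?_, ?_⟩
      · rw [hk']
        unfold kap
        refine integral_congr_ae (Eventually.of_forall fun x => ?_)
        simp only
        ring
      · have hm1 : ∀ x, |‖h‖ * Real.exp (φ x)| ≤ ‖h‖ * Real.exp ‖φ‖ := by
          intro x
          rw [abs_mul, abs_of_nonneg (norm_nonneg _)]
          exact mul_le_mul_of_nonneg_left (hwC φ x) (norm_nonneg _)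
        have hm2 : ∀ x, |-(‖h‖ * Real.exp (φ x))| ≤ ‖h‖ * Real.exp ‖φ‖ := by
          intro x
          rw [abs_neg]
          exact hm1 x
        have e' : ‖h‖ * b φ v v = ∫ x, ‖h‖ * Real.exp (φ x) * (i v x * i v x) ∂μ := by
          rw [hb, ← integral_const_mul]
          refine integral_congr_ae (Eventually.of_forall fun x => ?_)
          simp only
          ring
        have e2 : -(‖h‖ * b φ v v) = ∫ x, -(‖h‖ * Real.exp (φ x)) * (i v x * i v x) ∂μ := by
          rw [e', ← integral_neg]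
          refine integral_congr_ae (Eventually.of_forall fun x => ?_)
          simp only
          ring
        rw [abs_le]
        constructor
        · rw [e2, hk']
          refine mono_w (w := fun x => -(‖h‖ * Real.exp (φ x)))
            ((measurable_const.mul (hwm φ)).neg) hm2 (hkm h φ) (hkC h φ)
            (fun x => ?_) (i v)
          have h1 := neg_le_of_abs_le (habs h x)
          have h2 := mul_le_mul_of_nonneg_right h1 (Real.exp_pos (φ x)).le
          show -(‖h‖ * Real.exp (φ x)) ≤ h x * Real.exp (φ x)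
          linarith
        · rw [e', hk']
          refine mono_w (hkm h φ) (hkC h φ) (measurable_const.mul (hwm φ)) hm1
            (fun x => ?_) (i v)
          exact mul_le_mul_of_nonneg_right ((le_abs_self _).trans (habs h x)) (Real.exp_pos _).le
    · intro φ v τ
      rw [hb, hb, hk', ← integral_const_mul, ← integral_add (int_w (hwm φ) (hwC φ) (i v))
        ((int_w (hkm h φ) (hkC h φ) (i v)).const_mul τ)]
      refine integral_mono ((int_w (hwm φ) (hwC φ) (i v)).add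
        ((int_w (hkm h φ) (hkC h φ) (i v)).const_mul τ))
        (int_w (hwm (φ + τ • h)) (hwC (φ + τ • h)) (i v)) fun x => ?_
      have h0 : (φ + τ • h) x = φ x + τ * h x := rfl
      simp only [h0]
      have h1 : Real.exp (φ x) * (τ * h x + 1) ≤ Real.exp (φ x + τ * h x) := by
        rw [Real.exp_add]
        exact mul_le_mul_of_nonneg_left (Real.add_one_le_exp _) (Real.exp_pos _).le
      have h2 := mul_le_mul_of_nonneg_right h1 (mul_self_nonneg (i v x))
      linarith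



/-- one line -/
theorem line (M : Type) [MetricSpace M] [CompactSpace M] [MeasurableSpace M] [BorelSpace M]
    (μ : Measure M) [IsFiniteMeasure μ] (H : Type) [NormedAddCommGroup H] [InnerProductSpace ℝ H]
    (i : H →L[ℝ] Lp ℝ 2 μ) (a : H →L[ℝ] H →L[ℝ] ℝ) (ha : ∀ u v, a u v = inner ℝ u v)
    (hS : Tc μ i) (h : C(M, ℝ)) (b0 : C(M, ℝ) → H →L[ℝ] H →L[ℝ] ℝ) (hB : IsB μ i b0)
    (e : ℝ → ℕ → H) (E : ℝ → ℕ → ℝ) (hE : ∀ t : ℝ, Eg a (b0 (t • h)) (e t) (E t)) :
    (∀ t j, |kap μ i h (t • h) (e t j)| ≤ ‖h‖) ∧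
    (∀ j s t, E s j ≤ Real.exp (‖h‖ * |s - t|) * E t j) ∧
    ∀ᵐ t : ℝ, ∀ j, HasDerivAt (fun s : ℝ => E s j) (-(kap μ i h (t • h) (e t j) * E t j)) t := by
  obtain ⟨b, hB0, hF, hA, hexp, hk⟩ := fm2 M μ H i a ha hS
  have hbb : b0 = b := by
    funext ψ
    ext u v
    rw [hB0, hB]
  subst hbb
  obtain ⟨k, ksym, k1, k2⟩ := hk h
  obtain ⟨l1, l2, l3, -, l5⟩ := Pool.Agent.Y390.QR.LIP.lip M μ H a b0 hF hexp
  have hmm : ∀ t j, Ev a (b0 (t • h)) j = E t j := fun t j =>
    Pool.Agent.Y592.QE.mm H a (b0 (t • h)) (hF _) (e t) (E t) (hE t) j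
  have hLp : ∀ (j : ℕ) (s t : ℝ), Ev a (b0 (s • h)) j ≤
      Real.exp (‖h‖ * |s - t|) * Ev a (b0 (t • h)) j := by
    intro j s t
    have h1 := l3 (s • h) (t • h) j
    have e1 : ‖(s • h) - (t • h)‖ = ‖h‖ * |s - t| := by
      rw [← sub_smul, norm_smul, Real.norm_eq_abs, mul_comm]
    rw [e1] at h1
    exact h1
  have hkb : ∀ t j, |kap μ i h (t • h) (e t j)| ≤ ‖h‖ := by
    intro t j
    have h1 := (k1 (t • h) (e t j)).2
    rw [(k1 (t • h) (e t j)).1, (hE t).orth, if_pos rfl, mul_one] at h1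
    exact h1
  have c1 := Pool.Agent.Y147.QR.stAE (fun j t => Ev a (b0 (t • h)) j)
    (fun j t => kap μ i h (t • h) (e t j)) ‖h‖ (fun j t => l1 _ _)
    (fun i' j t hij => l2 _ _ _ hij) hLp (by
      intro i' j t hij hl ε hε
      have hij' : E t i' = E t j := by rw [← hmm, ← hmm]; exact hij
      have hl' : ∀ l, l < i' → E t l < E t i' := by
        intro l hli
        rw [← hmm, ← hmm]
        exact hl l hli
      obtain ⟨δ, hδ, h1⟩ := Pool.Agent.Y390.QR.LIP.der0 H a (b0 (t • h)) (hF _) (e t) (E t) (hE t)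
        (k (t • h)) ‖h‖ (ksym _) (fun v => (k1 _ v).2) i' j hij' hl' ε hε
      refine ⟨δ, hδ, fun τ hτ => ?_⟩
      have h2 := h1 τ hτ (b0 ((t + τ) • h)) (by
        intro v
        have h3 := k2 (t • h) v τ
        rw [← add_smul] at h3
        exact h3)
      rw [(k1 _ _).1, ← hmm] at h2
      exact h2)
  refine ⟨hkb, fun j s t => ?_, ?_⟩
  · rw [← hmm, ← hmm]
    exact hLp j s t
  · filter_upwards [c1] with t ht j
    have h1 := ht j
    simp only [hmm] at h1
    exact h1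

end Pool.Agent.Y264.LQ
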