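import Pool.Agent.Y264.QR.Stm
import Pool.Agent.Y147.QR.AE
import Pool.Agent.Y401.QR.Dens
import Pool.Agent.Y941.QR.Qi

/-!
# Random spectra in one direction: Weyl's law in probability implies weak convergence
-/

set_option autoImplicit false

open Set Filter Topology MeasureTheory
open Pool.Agent.Y264.QR

noncomputable section

namespace Pool.Agent.Y264.LQ

/-- scalar data of a random spectrum in one direction -/
structure Sd {Ω : Type} [MeasurableSpace Ω] (P : Measure Ω) (θ : ℝ → Ω → Ω) (K C : ℝ)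
    (X E : ℕ → Ω → ℝ) (Y G : Ω → ℝ) : Prop where
  fl : Flw P θ
  mX : ∀ j, Measurable (X j)
  mE : ∀ j, Measurable (E j)
  mY : Measurable Y
  mG : Measurable G
  pE : ∀ j o, 0 < E j o
  pG : ∀ o, 0 < G o
  bX : ∀ j o, |X j o| ≤ K
  bY : ∀ o, |Y o| ≤ K
  lE : ∀ j o s t, E j (θ s o) ≤ Real.exp (K * |s - t|) * E j (θ t o)
  lG : ∀ o s t, G (θ s o) ≤ Real.exp (K * |s - t|) * G (θ t o)
  dE : ∀ o, ∀ᵐ t : ℝ, ∀ j, HasDerivAt (fun s => E j (θ s o)) (-(X j (θ t o) * E j (θ t o))) t
  iG : ∀ o, ∀ α β : ℝ, α ≤ β →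
    ∫ t in α..β, Y (θ t o) = Real.log (G (θ β o)) - Real.log (G (θ α o))
  cC : 0 < C
  wl : TendstoInMeasure P (fun (j : ℕ) o => E j o * G o / (j + 1)) atTop fun _ => C

/-- from a dense set of times to all times -/
lemma all_times {R : ℕ → ℝ → ℝ} {K C : ℝ} (hC : 0 < C)
    (hL : ∀ i s t, R i s ≤ Real.exp (K * |s - t|) * R i t)
    (hq : ∀ q : ℚ, Tendsto (fun i => R i (q : ℝ)) atTop (𝓝 C)) (t : ℝ) :
    Tendsto (fun i => R i t) atTop (𝓝 C) := by
  refine tendsto_order.2 ⟨fun a ha => ?_, fun a ha => ?_⟩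
  · have h1 : Continuous fun x : ℝ => Real.exp (-(K * |x - t|)) * C := by fun_prop
    have h2 : a < Real.exp (-(K * |t - t|)) * C := by simpa using ha
    have h3 : IsOpen {x : ℝ | a < Real.exp (-(K * |x - t|)) * C} := isOpen_lt continuous_const h1
    obtain ⟨q, hq1⟩ := Rat.denseRange_cast.exists_mem_open h3 ⟨t, h2⟩
    have h4 : Tendsto (fun i => Real.exp (-(K * |(q : ℝ) - t|)) * R i q) atTop
        (𝓝 (Real.exp (-(K * |(q : ℝ) - t|)) * C)) := (hq q).const_mul _
    filter_upwards [h4.eventually (lt_mem_nhds hq1)] with i hi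
    refine hi.trans_le ?_
    have h5 := mul_le_mul_of_nonneg_left (hL i q t) (Real.exp_pos (-(K * |(q : ℝ) - t|))).le
    rw [← mul_assoc, ← Real.exp_add, neg_add_cancel, Real.exp_zero, one_mul] at h5
    exact h5
  · have h1 : Continuous fun x : ℝ => Real.exp (K * |t - x|) * C := by fun_prop
    have h2 : Real.exp (K * |t - t|) * C < a := by simpa using ha
    have h3 : IsOpen {x : ℝ | Real.exp (K * |t - x|) * C < a} := isOpen_lt h1 continuous_const
    obtain ⟨q, hq1⟩ := Rat.denseRange_cast.exists_mem_open h3 ⟨t, h2⟩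
    have h4 : Tendsto (fun i => Real.exp (K * |t - (q : ℝ)|) * R i q) atTop
        (𝓝 (Real.exp (K * |t - (q : ℝ)|) * C)) := (hq q).const_mul _
    filter_upwards [h4.eventually (gt_mem_nhds hq1)] with i hi
    exact (hL i t q).trans_lt hi

theorem Sd.main {Ω : Type} [MeasurableSpace Ω] {P : Measure Ω} [IsProbabilityMeasure P]
    {θ : ℝ → Ω → Ω} {K C : ℝ} {X E : ℕ → Ω → ℝ} {Y G : Ω → ℝ} (h : Sd P θ K C X E Y G)
    (χ : Ω → ℝ) (hχ : Integrable χ P) :
    Tendsto (fun j => ∫ o, χ o * X j o ∂P) atTop (𝓝 (∫ o, χ o * Y o ∂P)) := by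
  refine tendsto_of_subseq_tendsto fun ns hns => ?_
  have hW : TendstoInMeasure P (fun (i : ℕ) o => E (ns i) o * G o / ((ns i : ℕ) + 1)) atTop
      fun _ => C := h.wl.comp hns
  obtain ⟨ms, -, hae⟩ := hW.exists_seq_tendsto_ae
  refine ⟨ms, ?_⟩
  obtain ⟨N, hN⟩ : ∃ N : ℕ → ℕ, ∀ i, N i = ns (ms i) := ⟨_, fun i => rfl⟩
  simp only [← hN] at hae ⊢
  have hθ : ∀ t, Measurable (θ t) := fun t =>
    h.fl.meas.comp (measurable_const.prodMk measurable_id)
  have hθo : ∀ o, Measurable fun t => θ t o := fun o =>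
    h.fl.meas.comp (measurable_id.prodMk measurable_const)
  obtain ⟨R, hR⟩ : ∃ R : ℕ → Ω → ℝ, ∀ i o, R i o = E (N i) o * G o / ((N i : ℕ) + 1) :=
    ⟨_, fun i o => rfl⟩
  have hRm : ∀ i, Measurable (R i) := fun i => by
    have e : R i = fun o => E (N i) o * G o / ((N i : ℕ) + 1) := funext (hR i)
    rw [e]
    exact ((h.mE _).mul h.mG).div_const _
  obtain ⟨W, hW1⟩ : ∃ W : Set Ω, W = {o | Tendsto (fun i => R i o) atTop (𝓝 C)} := ⟨_, rfl⟩
  have hWm : MeasurableSet W := by
    rw [hW1]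
    exact measurableSet_tendsto_fun hRm measurable_const
  have hW0 : P Wᶜ = 0 := by
    have h1 : ∀ᵐ o ∂P, o ∈ W := by
      filter_upwards [hae] with o ho
      rw [hW1]
      show Tendsto (fun i => R i o) atTop (𝓝 C)
      simp only [hR]
      exact ho
    exact h1
  obtain ⟨V, hV⟩ : ∃ V : Set Ω, V = {o | ∀ q : ℚ, θ q o ∈ W} := ⟨_, rfl⟩
  have hVm : MeasurableSet V := by
    rw [hV, setOf_forall]
    exact MeasurableSet.iInter fun q => hθ q hWm
  have hV0 : ∀ᵐ o ∂P, o ∈ V := by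
    have h1 : ∀ᵐ o ∂P, ∀ q : ℚ, θ q o ∈ W := by
      rw [ae_all_iff]
      intro q
      have h2 : P.map (θ q) Wᶜ = 0 := h.fl.ac q hW0
      rw [Measure.map_apply (hθ q) hWm.compl] at h2
      exact h2
    filter_upwards [h1] with o ho
    rw [hV]
    exact ho
  have hKR : ∀ o i s t, R i (θ s o) ≤ Real.exp (2 * K * |s - t|) * R i (θ t o) := by
    intro o i s t
    rw [hR, hR]
    have h1 := h.lE (N i) o s t
    have h2 := h.lG o s t
    have h3 := mul_le_mul h1 h2 (h.pG _).le (mul_nonneg (Real.exp_pos _).le (h.pE _ _).le)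
    have h4 : (0 : ℝ) < (N i : ℕ) + 1 := by positivity
    rw [← mul_div_assoc]
    refine div_le_div_of_nonneg_right (h3.trans (le_of_eq ?_)) h4.le
    have e : Real.exp (2 * K * |s - t|) = Real.exp (K * |s - t|) * Real.exp (K * |s - t|) := by
      rw [← Real.exp_add]
      congr 1
      ring
    rw [e]
    ring
  have hall : ∀ o ∈ V, ∀ t : ℝ, Tendsto (fun i => R i (θ t o)) atTop (𝓝 C) := by
    intro o ho t
    refine all_times (R := fun i t => R i (θ t o)) (K := 2 * K) h.cC (hKR o) (fun q => ?_) t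
    rw [hV] at ho
    have h1 := ho q
    rw [hW1] at h1
    exact h1
  have hinv : ∀ o ∈ V, ∀ t : ℝ, θ t o ∈ V := by
    intro o ho t
    rw [hV]
    intro q
    rw [hW1]
    show Tendsto (fun i => R i (θ q (θ t o))) atTop (𝓝 C)
    rw [← h.fl.add]
    exact hall o ho _
  have hinv' : ∀ o, o ∉ V → ∀ t : ℝ, θ t o ∉ V := by
    intro o ho t ht
    apply ho
    have h1 := hinv _ ht (-t)
    rw [← h.fl.add, neg_add_cancel, h.fl.zero] at h1
    exact h1
  have hX : ∀ i o, |V.indicator (X (N i)) o| ≤ K := by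
    intro i o
    have hK : 0 ≤ K := (abs_nonneg _).trans (h.bY o)
    by_cases ho : o ∈ V
    · rw [indicator_of_mem ho]; exact h.bX _ _
    · rw [indicator_of_notMem ho, abs_zero]; exact hK
  have hY : ∀ o, |V.indicator Y o| ≤ K := by
    intro o
    have hK : 0 ≤ K := (abs_nonneg _).trans (h.bY o)
    by_cases ho : o ∈ V
    · rw [indicator_of_mem ho]; exact h.bY _
    · rw [indicator_of_notMem ho, abs_zero]; exact hK
  have key := Pool.Agent.Y941.QR.qw Ω P θ h.fl (fun i => V.indicator (X (N i))) (V.indicator Y) K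
    (fun i => (h.mX _).indicator hVm) (h.mY.indicator hVm) hX hY (by
      intro o χ' hχ'
      by_cases ho : o ∈ V
      · have e1 : ∀ (Z : Ω → ℝ) (t : ℝ), V.indicator Z (θ t o) = Z (θ t o) := fun Z t =>
          indicator_of_mem (hinv o ho t) Z
        simp only [e1]
        refine Pool.Agent.Y401.QR.t_Dens (fun i t => X (N i) (θ t o)) (fun t => Y (θ t o)) K
          (fun i => ((h.mX _).comp (hθo o)).aemeasurable) (h.mY.comp (hθo o)).aemeasurable
          (fun i => ae_of_all _ fun t => h.bX _ _) (ae_of_all _ fun t => h.bY _) ?_ χ' hχ'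
        intro α β hαβ
        rw [h.iG o α β hαβ]
        have h1 : ∀ t : ℝ, Tendsto (fun i => Real.log (R i (θ t o))) atTop (𝓝 (Real.log C)) :=
          fun t => (hall o ho t).log h.cC.ne'
        have h2 := (h1 α).sub (h1 β)
        rw [sub_self] at h2
        have h3 := h2.add_const (Real.log (G (θ β o)) - Real.log (G (θ α o)))
        rw [zero_add] at h3
        refine h3.congr fun i => ?_
        have h4 := (Pool.Agent.Y147.QR.stFTC (fun t => E (N i) (θ t o)) (fun t => X (N i) (θ t o)) K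
          (fun t => h.pE _ _) (fun s t => h.lE _ _ _ _) ((h.dE o).mono fun t ht => ht (N i))).2.2
          α β hαβ
        rw [h4, hR, hR]
        have h5 : ((N i : ℕ) : ℝ) + 1 ≠ 0 := by positivity
        have p1 := (h.pE (N i) (θ α o)).ne'
        have p2 := (h.pE (N i) (θ β o)).ne'
        have p3 := (h.pG (θ α o)).ne'
        have p4 := (h.pG (θ β o)).ne'
        rw [Real.log_div (mul_ne_zero p1 p3) h5, Real.log_div (mul_ne_zero p2 p4) h5,
          Real.log_mul p1 p3, Real.log_mul p2 p4]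
        ring
      · have e1 : ∀ (Z : Ω → ℝ) (t : ℝ), V.indicator Z (θ t o) = 0 := fun Z t =>
          indicator_of_notMem (hinv' o ho t) Z
        simp only [e1, mul_zero, integral_zero]
        exact tendsto_const_nhds) χ hχ
  have e2 : ∀ Z : Ω → ℝ, ∫ o, χ o * V.indicator Z o ∂P = ∫ o, χ o * Z o ∂P := by
    intro Z
    refine integral_congr_ae ?_
    filter_upwards [hV0] with o ho
    simp only [indicator_of_mem ho]
  simp only [e2] at key
  exact key

end Pool.Agent.Y264.LQ
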