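import Pool.Agent.Y264.LQ.Sc
import Pool.Agent.Y264.LQ.Fm2
import Pool.Agent.Y264.QR.Top
import Pool.Agent.Y155.QR.One

/-!
# Random measures and a fixed Dirichlet form
-/

set_option autoImplicit false

open Set Filter Topology MeasureTheory
open Pool.Agent.Y262.QE Pool.Agent.Y264.QR

noncomputable section

namespace Pool.Agent.Y264.LQ

section defs

variable {Ω M H : Type} [MeasurableSpace Ω] [MetricSpace M] [CompactSpace M] [MeasurableSpace M]
  [NormedAddCommGroup H] [InnerProductSpace ℝ H]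

/-- the functions `q v`, `v ∈ H`, define a bounded operator `i` from `H` to `L² (ν)` which is compact
(for every `ε` the form `‖i v‖²` is at most `ε ‖v‖²` up to finitely many squares of functionals) and
of infinite rank -/
def IsTrace (q : H → M → ℝ) (ν : Measure M) : Prop :=
  ∃ i : H →L[ℝ] Lp ℝ 2 ν, (∀ v, (i v : M → ℝ) =ᵐ[ν] q v) ∧
    (∀ ε : ℝ, 0 < ε → ∃ (N : ℕ) (l : Fin N → H →L[ℝ] ℝ),
      ∀ v, ‖i v‖ ^ 2 ≤ ε * ‖v‖ ^ 2 + ∑ j, (l j v) ^ 2) ∧
    ∃ e : ℕ → H, ∀ j k, ∫ x, q (e j) x * q (e k) x ∂ν = if j = k then 1 else 0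

/-- `u 0, u 1, ...` are orthonormal in `L² (ν)` and eigenvectors of the form `⟪v, v⟫` with respect to
the form `∫ (q v)² dν`; the eigenvalues increase to infinity and Parseval's identity holds -/
structure IsEigenbasis (q : H → M → ℝ) (ν : Measure M) (u : ℕ → H) (lam : ℕ → ℝ) : Prop where
  orth : ∀ j k, ∫ x, q (u j) x * q (u k) x ∂ν = if j = k then 1 else 0
  eig : ∀ j v, inner ℝ (u j) v = lam j * ∫ x, q (u j) x * q v x ∂ν
  mono : Monotone lam
  top : Tendsto lam atTop atTop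
  total : ∀ v, HasSum (fun j => (∫ x, q v x * q (u j) x ∂ν) ^ 2) (∫ x, q v x * q v x ∂ν)

/-- the law `P` is quasi-invariant under a measurable flow which multiplies the measure `μ` by
`exp (t f)` -/
def QI (P : Measure Ω) (μ : Ω → Measure M) (f : C(M, ℝ)) : Prop :=
  ∃ θ : ℝ → Ω → Ω, Measurable (fun p : ℝ × Ω => θ p.1 p.2) ∧ (∀ o, θ 0 o = o) ∧
    (∀ s t o, θ (s + t) o = θ s (θ t o)) ∧ (∀ t, P.map (θ t) ≪ P) ∧
    ∀ t o, μ (θ t o) = (μ o).withDensity fun x => ENNReal.ofReal (Real.exp (t * f x))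

end defs

variable {Ω M H : Type} [MeasurableSpace Ω] [MetricSpace M] [CompactSpace M] [MeasurableSpace M]
  [BorelSpace M] [NormedAddCommGroup H] [InnerProductSpace ℝ H]

/-- the scalar product as a form -/
def aI (H : Type) [NormedAddCommGroup H] [InnerProductSpace ℝ H] : H →L[ℝ] H →L[ℝ] ℝ :=
  (innerSL ℝ (E := H)).bilinearComp (ContinuousLinearMap.id ℝ H) (ContinuousLinearMap.id ℝ H)

lemma aI_apply (u v : H) : aI H u v = inner ℝ u v := rfl

lemma inner_int (ν : Measure M) (i : H →L[ℝ] Lp ℝ 2 ν) (q : H → M → ℝ)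
    (hi : ∀ v, (i v : M → ℝ) =ᵐ[ν] q v) (u v : H) :
    inner ℝ (i u) (i v) = ∫ x, q u x * q v x ∂ν := by
  rw [Pool.Agent.Y363.QE.inner_eq]
  refine integral_congr_ae ?_
  filter_upwards [hi u, hi v] with x h1 h2
  rw [h1, h2]

lemma form_int (ν : Measure M) (i : H →L[ℝ] Lp ℝ 2 ν) (q : H → M → ℝ)
    (hi : ∀ v, (i v : M → ℝ) =ᵐ[ν] q v) (b : C(M, ℝ) → H →L[ℝ] H →L[ℝ] ℝ) (hb : IsB ν i b)
    (φ : C(M, ℝ)) (u v : H) :
    b φ u v = ∫ x, q u x * q v x ∂(wm ν fun x => Real.exp (φ x)) := by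
  have hm : Measurable fun x => Real.exp (φ x) :=
    (Real.continuous_exp.comp φ.continuous).measurable
  rw [integral_wm ν _ hm (fun x => (Real.exp_pos _).le), hb]
  refine integral_congr_ae ?_
  filter_upwards [hi u, hi v] with x h1 h2
  rw [h1, h2]

/-- everything about one orbit -/
lemma orbit {P : Measure Ω} (q : H → M → ℝ) (μ : Ω → Measure M)
    [∀ o, IsFiniteMeasure (μ o)] (hq : ∀ o, IsTrace q (μ o)) (u : Ω → ℕ → H) (lam : Ω → ℕ → ℝ)
    (hu : ∀ o, IsEigenbasis q (μ o) (u o) (lam o)) (f : C(M, ℝ)) (θ : ℝ → Ω → Ω)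
    (hθ : ∀ t o, μ (θ t o) = (μ o).withDensity fun x => ENNReal.ofReal (Real.exp (t * f x)))
    (o : Ω) :
    (∀ t j, |∫ x, f x * (q (u (θ t o) j) x) ^ 2 ∂(μ (θ t o))| ≤ ‖f‖) ∧
    (∀ t, |(∫ x, f x ∂(μ (θ t o))) / (μ (θ t o)).real univ| ≤ ‖f‖) ∧
    (∀ t, 0 < (μ (θ t o)).real univ) ∧
    (∀ j s t, lam (θ s o) j ≤ Real.exp (‖f‖ * |s - t|) * lam (θ t o) j) ∧
    (∀ s t, (μ (θ s o)).real univ ≤ Real.exp (‖f‖ * |s - t|) * (μ (θ t o)).real univ) ∧
    (∀ᵐ t : ℝ, ∀ j, HasDerivAt (fun s => lam (θ s o) j)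
      (-((∫ x, f x * (q (u (θ t o) j) x) ^ 2 ∂(μ (θ t o))) * lam (θ t o) j)) t) ∧
    ∀ α β : ℝ, α ≤ β → ∫ t in α..β, (∫ x, f x ∂(μ (θ t o))) / (μ (θ t o)).real univ =
      Real.log ((μ (θ β o)).real univ) - Real.log ((μ (θ α o)).real univ) := by
  obtain ⟨i, hi, hcp, e0, he0⟩ := hq o
  have hS : Tc (μ o) i := ⟨hcp, e0, fun m m' => by rw [inner_int (μ o) i q hi, he0]⟩
  obtain ⟨b, hB, -, hA, -, -⟩ := fm2 M (μ o) H i (aI H) aI_apply hS
  have hw : ∀ t : ℝ, μ (θ t o) = wm (μ o) fun x => Real.exp ((t • f) x) := fun t => hθ t o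
  have hbq : ∀ (t : ℝ) (v w : H), b (t • f) v w = ∫ x, q v x * q w x ∂(μ (θ t o)) := by
    intro t v w
    rw [form_int (μ o) i q hi b hB, hw]
  have hE : ∀ t : ℝ, Eg (aI H) (b (t • f)) (u (θ t o)) (lam (θ t o)) := fun t =>
    ⟨fun j k => by rw [hbq]; exact (hu (θ t o)).orth j k,
      fun j v => by rw [hbq, aI_apply]; exact (hu (θ t o)).eig j v,
      (hu (θ t o)).mono, (hu (θ t o)).top, fun v => by
        simp only [hbq]
        exact (hu (θ t o)).total v⟩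
  obtain ⟨h1, h2, h3⟩ := line M (μ o) H i (aI H) aI_apply hS f b hB (fun t => u (θ t o))
    (fun t => lam (θ t o)) hE
  have hk : ∀ (t : ℝ) (j : ℕ), kap (μ o) i f (t • f) (u (θ t o) j) =
      ∫ x, f x * (q (u (θ t o) j) x) ^ 2 ∂(μ (θ t o)) := by
    intro t j
    rw [kap_eq (μ o) i f (t • f) _ _ (hi _), hw]
  have hav : ∀ t : ℝ, avg (μ o) f (t • f) =
      (∫ x, f x ∂(μ (θ t o))) / (μ (θ t o)).real univ := by
    intro t
    rw [avg_eq, hw]
  have hG : ∀ t : ℝ, (μ (θ t o)).real univ = ∫ x, Real.exp ((t • f) x) ∂(μ o) := by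
    intro t
    have hm : Measurable fun x => Real.exp ((t • f) x) :=
      (Real.continuous_exp.comp (t • f).continuous).measurable
    have h5 : (μ (θ t o)).real univ = ∫ x, (1 : ℝ) ∂(μ (θ t o)) := by simp
    rw [h5, hw, integral_wm (μ o) _ hm (fun x => (Real.exp_pos _).le)]
    simp
  refine ⟨fun t j => ?_, fun t => ?_, fun t => ?_, h2, fun s t => ?_, ?_, fun α β hαβ => ?_⟩
  · rw [← hk]; exact h1 t j
  · rw [← hav]; exact Pool.Agent.Y155.QR.avg_le (μ o) hA _ f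
  · rw [hG]; exact hA _
  · rw [hG, hG, ← integral_const_mul]
    refine integral_mono (Pool.Agent.Y155.QR.int_cont (μ o) (by fun_prop))
      (Pool.Agent.Y155.QR.int_cont (μ o) (by fun_prop)) fun x => ?_
    show Real.exp (s * f x) ≤ Real.exp (‖f‖ * |s - t|) * Real.exp (t * f x)
    rw [← Real.exp_add]
    refine Real.exp_le_exp.2 ?_
    have h5 : |f x| ≤ ‖f‖ := by
      rw [← Real.norm_eq_abs]; exact f.norm_coe_le_norm x
    have h6 : (s - t) * f x ≤ |s - t| * ‖f‖ := by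
      refine (le_abs_self _).trans ?_
      rw [abs_mul]
      exact mul_le_mul_of_nonneg_left h5 (abs_nonneg _)
    nlinarith
  · filter_upwards [h3] with t ht j
    rw [← hk]
    exact ht j
  · have h5 := Pool.Agent.Y155.QR.avg_int (μ o) hA 0 f α β
    simp only [zero_add] at h5
    simp only [← hav]
    rw [h5, hG, hG]

end Pool.Agent.Y264.LQ
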